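import Pool.Agent.W2helper63.LL.Stm

/-!
# Piece KLA of project LL (MP_5ae62c_nt)
-/

set_option autoImplicit false

noncomputable section

namespace Pool.Agent.W2helper7.LL

open Matrix WithZero Pool.Agent.W2helper63.LL

section alg

variable {L : Type} [Field L]

lemma bor_mul (a a' d d' : Lˣ) (x x' : L) :
    bor a x d * bor a' x' d' = bor (a * a') (a * x' + x * d') (d * d') := by
  apply Units.ext
  show !![(a : L), x; 0, (d : L)] * !![(a' : L), x'; 0, (d' : L)] =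
    !![((a * a' : Lˣ) : L), a * x' + x * d'; 0, ((d * d' : Lˣ) : L)]
  ext i j
  fin_cases i <;> fin_cases j <;> simp [Matrix.mul_apply, Fin.sum_univ_two]

lemma tt_zpow (p : Lˣ) (n : ℤ) : tt p ^ n = bor (p ^ n) 0 1 := by
  obtain ⟨φ, hφ⟩ : ∃ φ : Lˣ →* GL (Fin 2) L, ∀ a, φ a = bor a 0 1 :=
    ⟨MonoidHom.mk' (fun a => bor a 0 1) (fun a b => by rw [bor_mul]; simp), fun a => rfl⟩
  unfold tt
  rw [← hφ, ← hφ, map_zpow]

lemma nu_tt (a : L) (p : Lˣ) (n : ℤ) : nu a * tt p ^ n = bor (p ^ n) a 1 := by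
  unfold nu
  rw [tt_zpow, bor_mul]
  simp

lemma sw_ww (p : Lˣ) : sw * ww p = tt p := by
  apply Units.ext
  show !![(0 : L), 1; 1, 0] * !![0, 1; (p : L), 0] = !![(p : L), 0; 0, ((1 : Lˣ) : L)]
  ext i j
  fin_cases i <;> fin_cases j <;> simp [Matrix.mul_apply, Fin.sum_univ_two]

end alg

section val

variable {L : Type} [Field L] [Valued L (WithZero (Multiplicative ℤ))]

lemma iw_bor {a d : Lˣ} {x : L} (ha : Valued.v (a : L) = 1) (hd : Valued.v (d : L) = 1)
    (hx : Valued.v x ≤ 1) : Iw (bor a x d) := by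
  have ha' : Valued.v ((a⁻¹ : Lˣ) : L) = 1 := by
    rw [Units.val_inv_eq_inv_val, map_inv₀, ha, inv_one]
  have hd' : Valued.v ((d⁻¹ : Lˣ) : L) = 1 := by
    rw [Units.val_inv_eq_inv_val, map_inv₀, hd, inv_one]
  have hx' : Valued.v (-((a⁻¹ : Lˣ) : L) * x * ((d⁻¹ : Lˣ) : L)) ≤ 1 := by
    rw [map_mul, map_mul, Valuation.map_neg, ha', hd', mul_one, one_mul]
    exact hx
  refine ⟨fun i j => ?_, ?_⟩
  · have e1 : (bor a x d)⁻¹.1 =
      !![((a⁻¹ : Lˣ) : L), -((a⁻¹ : Lˣ) : L) * x * ((d⁻¹ : Lˣ) : L); 0, ((d⁻¹ : Lˣ) : L)] := rfl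
    have e2 : (bor a x d).1 = !![(a : L), x; 0, (d : L)] := rfl
    rw [e1, e2]
    fin_cases i <;> fin_cases j
    · exact ⟨ha.le, ha'.le⟩
    · exact ⟨hx, hx'⟩
    · exact ⟨by simp, by simp⟩
    · exact ⟨hd.le, hd'.le⟩
  · show Valued.v (0 : L) < 1
    rw [map_zero]
    exact zero_lt_one

lemma iw_nl {c : L} (hc : Valued.v c < 1) : Iw (nl c) := by
  refine ⟨fun i j => ?_, hc⟩
  have e1 : (nl c)⁻¹.1 = !![(1 : L), 0; -c, 1] := rfl
  have e2 : (nl c).1 = !![(1 : L), 0; c, 1] := rfl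
  rw [e1, e2]
  fin_cases i <;> fin_cases j
  · exact ⟨by simp, by simp⟩
  · exact ⟨by simp, by simp⟩
  · refine ⟨hc.le, ?_⟩
    show Valued.v (-c) ≤ 1
    rw [Valuation.map_neg]
    exact hc.le
  · exact ⟨by simp, by simp⟩

lemma v_zpow {p : Lˣ} (hp : Valued.v (p : L) = exp (-1 : ℤ)) (n : ℤ) :
    Valued.v ((p ^ n : Lˣ) : L) = exp (-n) := by
  rw [Units.val_zpow_eq_zpow_val, map_zpow₀, hp, ← WithZero.exp_zsmul]
  congr 1
  simp

variable {V : Type} [AddCommGroup V] [Module ℂ V] {ρ : Representation ℂ (GL (Fin 2) L) V}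
  {p : Lˣ} {u : V}

lemma U_eq (a : L) (n : ℤ) : U ρ p u a n = ρ (bor (p ^ n) a 1) u := by
  unfold U
  rw [nu_tt]

lemma kla1 (hp : Res2 L p) (hu : StVec ρ p u) (a b : L) (n : ℤ)
    (h : Valued.v (a - b) ≤ exp (-n)) : U ρ p u a n = U ρ p u b n := by
  rw [U_eq, U_eq]
  have h1 : bor (p ^ n) a 1 = bor (p ^ n) b 1 * bor 1 (((p ^ (-n) : Lˣ) : L) * (a - b)) 1 := by
    rw [bor_mul]
    congr 1
    · rw [mul_one]
    · have : ((p ^ n : Lˣ) : L) * ((p ^ (-n) : Lˣ) : L) = 1 := by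
        rw [← Units.val_mul, ← _root_.zpow_add, add_neg_cancel, zpow_zero, Units.val_one]
      rw [← mul_assoc, this]
      simp
    · rw [mul_one]
  have h2 : Iw (bor (1 : Lˣ) (((p ^ (-n) : Lˣ) : L) * (a - b)) 1) := by
    apply iw_bor (by simp) (by simp)
    rw [map_mul, v_zpow hp.val, neg_neg]
    calc exp n * Valued.v (a - b) ≤ exp n * exp (-n) := mul_le_mul_right h _
      _ = 1 := by rw [← exp_add, add_neg_cancel, exp_zero]
  rw [h1, map_mul, Module.End.mul_apply, hu.iw _ h2]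

lemma rho_sw (hu : StVec ρ p u) : ρ sw u = -ρ (tt p) u := by
  rw [← sw_ww, map_mul, Module.End.mul_apply, hu.w, map_neg, neg_neg]

lemma kla2 (hu : StVec ρ p u) (a : L) (n : ℤ) :
    U ρ p u a n = U ρ p u a (n + 1) + U ρ p u (a + (p : L) ^ n) (n + 1) := by
  have h1 : u = ρ (tt p) u + ρ (nu 1 * tt p) u := by
    have h2 := hu.rel
    rw [map_mul, Module.End.mul_apply, rho_sw hu, map_neg] at h2
    rw [map_mul ρ (nu 1), Module.End.mul_apply]
    have h3 : u = u + -(ρ (tt p)) u + -(ρ (nu 1)) ((ρ (tt p)) u) +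
      ((ρ (tt p)) u + (ρ (nu 1)) ((ρ (tt p)) u)) := by abel
    rw [h2, zero_add] at h3
    exact h3
  have h4 : U ρ p u a n = ρ (nu a * tt p ^ n) (ρ (tt p) u + ρ (nu 1 * tt p) u) := by
    rw [← h1]; rfl
  rw [h4, map_add, ← Module.End.mul_apply, ← map_mul, ← Module.End.mul_apply, ← map_mul]
  have e1 : nu a * tt p ^ n * tt p = nu a * tt p ^ (n + 1) := by rw [mul_assoc, _root_.zpow_add_one]
  have e2 : nu a * tt p ^ n * (nu 1 * tt p) = nu (a + (p : L) ^ n) * tt p ^ (n + 1) := by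
    rw [nu_tt, nu_tt]
    have : nu (1 : L) * tt p = bor p 1 1 := by
      have := nu_tt (1 : L) p 1
      rwa [zpow_one, zpow_one] at this
    rw [this, bor_mul, _root_.zpow_add_one]
    congr 1
    · rw [Units.val_zpow_eq_zpow_val]
      simp [add_comm]
    · rw [mul_one]
  rw [e1, e2]
  rfl

/-- refinement -/
lemma refine_span (hu : StVec ρ p u) (a : L) (n : ℤ) (k : ℕ) :
    U ρ p u a n ∈ Submodule.span ℂ (Set.range fun b => U ρ p u b (n + k)) := by
  induction k generalizing a n with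
  | zero =>
    apply Submodule.subset_span
    exact ⟨a, by simp⟩
  | succ k ih =>
    rw [kla2 hu]
    have e : n + ((k + 1 : ℕ) : ℤ) = (n + 1) + (k : ℤ) := by push_cast; ring
    rw [e]
    exact Submodule.add_mem _ (ih a (n + 1)) (ih _ (n + 1))

/-- the first case -/
lemma case1 (hp : Res2 L p) (hu : StVec ρ p u) (g : GL (Fin 2) L)
    (h : Valued.v (g.1 1 0) < Valued.v (g.1 1 1)) : ∃ (a : L) (n : ℤ), ρ g u = U ρ p u a n := by
  have hd0 : g.1 1 1 ≠ 0 := by
    intro h0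
    rw [h0, map_zero] at h
    exact absurd h not_lt_zero
  have hdet : g.1 0 0 * g.1 1 1 - g.1 0 1 * g.1 1 0 ≠ 0 := by
    have h1 := (Matrix.isUnit_iff_isUnit_det g.1).1 g.isUnit
    rw [Matrix.det_fin_two] at h1
    exact h1.ne_zero
  obtain ⟨d, hd⟩ : ∃ d : Lˣ, (d : L) = g.1 1 1 := ⟨Units.mk0 _ hd0, rfl⟩
  obtain ⟨D, hD⟩ : ∃ D : Lˣ, (D : L) = g.1 0 0 * g.1 1 1 - g.1 0 1 * g.1 1 0 :=
    ⟨Units.mk0 _ hdet, rfl⟩
  obtain ⟨q, hq⟩ : ∃ q : Lˣ, q = D * (d ^ 2)⁻¹ := ⟨_, rfl⟩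
  have hvq : Valued.v (q : L) ≠ 0 := (Valuation.ne_zero_iff _).2 q.ne_zero
  obtain ⟨n, hn⟩ : ∃ n : ℤ, n = -log (Valued.v (q : L)) := ⟨_, rfl⟩
  obtain ⟨ε, hε⟩ : ∃ ε : Lˣ, ε = p ^ (-n) * q := ⟨_, rfl⟩
  have hvε : Valued.v (ε : L) = 1 := by
    rw [hε, Units.val_mul, map_mul, v_zpow hp.val, neg_neg, hn, WithZero.exp_neg, exp_log hvq,
      inv_mul_cancel₀ hvq]
  refine ⟨g.1 0 1 / g.1 1 1, n, ?_⟩
  have hg : g = bor (p ^ n) (g.1 0 1 / g.1 1 1) 1 * bor ε 0 1 * (bor d 0 d * nl (g.1 1 0 / g.1 1 1)) := by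
    have h1 : bor (p ^ n) (g.1 0 1 / g.1 1 1) 1 * bor ε 0 1 * bor d 0 d =
        bor (q * d) (g.1 0 1) d := by
      rw [bor_mul, bor_mul]
      congr 1
      · rw [hε, ← mul_assoc, ← _root_.zpow_add, add_neg_cancel, zpow_zero, one_mul]
      · rw [hd]
        field_simp
        simp
      · simp
    rw [← mul_assoc, h1]
    apply Units.ext
    have hqd : ((q * d : Lˣ) : L) * g.1 1 1 = (D : L) := by
      rw [← hd, hq, Units.val_mul, Units.val_mul, Units.val_inv_eq_inv_val, Units.val_pow_eq_pow_val]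
      field_simp
    have hqd' : ((q * d : Lˣ) : L) = (D : L) / g.1 1 1 := by
      rw [← hqd]
      field_simp
    show g.1 = !![((q * d : Lˣ) : L), g.1 0 1; 0, (d : L)] * !![1, 0; g.1 1 0 / g.1 1 1, 1]
    rw [hqd', hd, hD]
    ext i j
    fin_cases i <;> fin_cases j
    · simp [Matrix.mul_apply, Fin.sum_univ_two]
      field_simp
      ring
    · simp [Matrix.mul_apply, Fin.sum_univ_two]
    · simp [Matrix.mul_apply, Fin.sum_univ_two]
      field_simp
    · simp [Matrix.mul_apply, Fin.sum_univ_two]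
  have hc : Valued.v (g.1 1 0 / g.1 1 1) < 1 := by
    rw [map_div₀, div_lt_one₀ (lt_of_le_of_lt zero_le h)]
    exact h
  rw [U_eq, hg]
  rw [map_mul, Module.End.mul_apply, map_mul _ (bor d 0 d), Module.End.mul_apply,
    hu.iw _ (iw_nl hc), hu.cen, map_mul, Module.End.mul_apply,
    hu.iw _ (iw_bor hvε (by simp) (by simp))]
  rw [← hg]

end val

theorem kla : S_KLA := by
  intro L _ _ p hp V _ _ ρ u hu
  refine ⟨fun a b n h => kla1 hp hu a b n h, fun a n => kla2 hu a n, ?_⟩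
  intro y hy
  have key : ∃ N : ℕ, ∀ n : ℕ, N ≤ n →
      y ∈ Submodule.span ℂ (Set.range fun b => U ρ p u b n) := by
    unfold gen at hy
    induction hy using Submodule.span_induction with
    | mem x hx =>
      obtain ⟨g, rfl⟩ := hx
      have h1 : ∃ (a : L) (m : ℤ), ρ g u = U ρ p u a m ∨ ρ g u = -U ρ p u a m := by
        rcases lt_or_ge (Valued.v (g.1 1 0)) (Valued.v (g.1 1 1)) with h | h
        · obtain ⟨a, m, ham⟩ := case1 hp hu g h
          exact ⟨a, m, Or.inl ham⟩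
        · have hc0 : g.1 1 0 ≠ 0 := by
            intro h0
            rw [h0, map_zero, nonpos_iff_eq_zero, Valuation.zero_iff] at h
            have h1 := (Matrix.isUnit_iff_isUnit_det g.1).1 g.isUnit
            rw [Matrix.det_fin_two, h0, h, mul_zero, mul_zero, sub_zero] at h1
            exact not_isUnit_zero h1
          have hvc : 0 < Valued.v (g.1 1 0) := by
            rw [zero_lt_iff]
            exact (Valuation.ne_zero_iff _).2 hc0
          have e1 : (g * ww p).1 = g.1 * !![0, 1; (p : L), 0] := rfl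
          obtain ⟨a, m, ham⟩ := case1 hp hu (g * ww p) (by
            rw [e1]
            simp only [Matrix.mul_apply, Fin.sum_univ_two, Matrix.of_apply, Matrix.cons_val', Matrix.cons_val_zero,
              Matrix.cons_val_one, mul_zero, zero_add, mul_one, add_zero, Matrix.cons_val_fin_one]
            rw [map_mul, hp.val]
            calc Valued.v (g.1 1 1) * exp (-1 : ℤ) ≤ Valued.v (g.1 1 0) * exp (-1 : ℤ) :=
                  mul_le_mul_left h _
              _ < Valued.v (g.1 1 0) * 1 := by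
                  apply mul_lt_mul_of_pos_left _ hvc
                  rw [← exp_zero, exp_lt_exp]
                  norm_num
              _ = _ := mul_one _)
          refine ⟨a, m, Or.inr ?_⟩
          rw [← ham, map_mul, Module.End.mul_apply, hu.w, map_neg, neg_neg]
      obtain ⟨a, m, ham⟩ := h1
      refine ⟨m.toNat, fun n hn => ?_⟩
      obtain ⟨k, hk⟩ : ∃ k : ℕ, (n : ℤ) = m + k := ⟨((n : ℤ) - m).toNat, by omega⟩
      have h2 := refine_span hu a m k
      rw [← hk] at h2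
      rcases ham with h3 | h3
      · show ρ g u ∈ _
        rw [h3]
        exact h2
      · show ρ g u ∈ _
        rw [h3]
        exact Submodule.neg_mem _ h2
    | zero => exact ⟨0, fun n _ => Submodule.zero_mem _⟩
    | add x y _ _ hx hy =>
      obtain ⟨N, hN⟩ := hx
      obtain ⟨N', hN'⟩ := hy
      exact ⟨max N N', fun n hn => Submodule.add_mem _ (hN n (le_trans (le_max_left _ _) hn))
        (hN' n (le_trans (le_max_right _ _) hn))⟩
    | smul a x _ hx =>
      obtain ⟨N, hN⟩ := hx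
      exact ⟨N, fun n hn => Submodule.smul_mem _ _ (hN n hn)⟩
  obtain ⟨N, hN⟩ := key
  refine ⟨N, fun n hn => ?_⟩
  obtain ⟨c, hc⟩ := Finsupp.mem_span_range_iff_exists_finsupp.1 (hN n hn)
  exact ⟨c, hc.symm⟩

end Pool.Agent.W2helper7.LL
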