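import Pool.Agent.W2helper63.LL.Stm

/-!
# Piece FEX of project LL (MP_5ae62c_nt)
-/

set_option autoImplicit false

noncomputable section

namespace Pool.Agent.W2helper7.LL

open Matrix WithZero Pool.Agent.W2helper63.LL
open scoped Classical

lemma dg_mul (a b : GL (Fin 2) K) : dg (a * b) = dg a * dg b := by
  unfold dg
  rw [map_mul, map_mul]
  rfl

lemma dg_one : dg 1 = 1 := by
  unfold dg
  rw [map_one, map_one]
  rfl

lemma dg_inv (a : GL (Fin 2) K) : dg a⁻¹ = (dg a)⁻¹ := by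
  unfold dg
  rw [map_inv, map_inv]
  rfl

/-- `zz` is central -/
lemma zz_comm (g : GA) : g * zz = zz * g := by
  apply Prod.ext
  · show g.1 * 1 = 1 * g.1
    rw [mul_one, one_mul]
  · show g.2 * bor pinf 0 pinf = bor pinf 0 pinf * g.2
    apply Units.ext
    show g.2.1 * !![(pinf : Kinf), 0; 0, (pinf : Kinf)] = !![(pinf : Kinf), 0; 0, (pinf : Kinf)] * g.2.1
    ext i j
    fin_cases i <;> fin_cases j <;> simp [Matrix.mul_apply, Fin.sum_univ_two, mul_comm]

lemma zz_zpow_comm (g : GA) (n : ℤ) : g * zz ^ n = zz ^ n * g :=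
  ((show Commute g zz from zz_comm g).zpow_right n)

theorem fex : S_FEX := by
  intro hDD hTRIV hFRV
  obtain ⟨-, -, hmul, hinv, -, -⟩ := hDD
  refine ⟨fun g => if h : ∃ (γ : GL (Fin 2) K) (n : ℤ) (k : GA), inD k ∧ g = dg γ * zz ^ n * k then
    chi h.choose_spec.choose_spec.choose else 0, ?_, ?_⟩
  · intro γ n k hk
    have h : ∃ (γ' : GL (Fin 2) K) (n' : ℤ) (k' : GA), inD k' ∧
        dg γ * zz ^ n * k = dg γ' * zz ^ n' * k' := ⟨γ, n, k, hk, rfl⟩
    beta_reduce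
    rw [dif_pos h]
    obtain ⟨hk', he⟩ := h.choose_spec.choose_spec.choose_spec
    generalize h.choose_spec.choose_spec.choose = k' at hk' he ⊢
    generalize h.choose_spec.choose = n' at he
    generalize h.choose = γ' at he
    have h1 : dg (γ'⁻¹ * γ) * zz ^ (n - n') = k' * k⁻¹ := by
      rw [dg_mul, dg_inv, _root_.zpow_sub, eq_mul_inv_iff_mul_eq]
      have h2 : (dg γ')⁻¹ * dg γ * (zz ^ n * (zz ^ n')⁻¹) * k =
          (zz ^ n')⁻¹ * ((dg γ')⁻¹ * (dg γ * zz ^ n * k)) := by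
        have e1 : zz ^ n * (zz ^ n')⁻¹ = (zz ^ n')⁻¹ * zz ^ n := by
          rw [← _root_.zpow_neg, ← _root_.zpow_add, ← _root_.zpow_add, add_comm]
        rw [e1, ← _root_.zpow_neg]
        have e2 : ∀ g : GA, g * zz ^ (-n') = zz ^ (-n') * g := fun g => zz_zpow_comm g _
        calc (dg γ')⁻¹ * dg γ * (zz ^ (-n') * zz ^ n) * k =
            ((dg γ')⁻¹ * dg γ * zz ^ (-n')) * (zz ^ n * k) := by simp only [mul_assoc]
          _ = (zz ^ (-n') * ((dg γ')⁻¹ * dg γ)) * (zz ^ n * k) := by rw [e2]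
          _ = _ := by simp only [mul_assoc]
      rw [h2, he]
      have e2 : dg γ' * zz ^ n' = zz ^ n' * dg γ' := zz_zpow_comm _ _
      calc (zz ^ n')⁻¹ * ((dg γ')⁻¹ * (dg γ' * zz ^ n' * k')) =
          (zz ^ n')⁻¹ * (((dg γ')⁻¹ * dg γ') * (zz ^ n' * k')) := by simp only [mul_assoc]
        _ = k' := by rw [inv_mul_cancel, one_mul, ← mul_assoc, inv_mul_cancel, one_mul]
    have h2 := hTRIV _ _ (h1 ▸ hmul _ _ hk' (hinv _ hk))
    have h3 : k' * k⁻¹ = 1 := by
      rw [← h1, h2.1, h2.2, dg_one, _root_.zpow_zero, one_mul]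
    rw [mul_inv_eq_one.1 h3]
  · intro g hg
    beta_reduce
    rw [dif_neg hg]

end Pool.Agent.W2helper7.LL
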