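import Pool.Agent.W2helper10.LL.Triv
import Pool.Agent.W2helper44.LL.DD
import Pool.Agent.W2helper7.LL.KLA

/-!
# Piece VAL of project LL (MP_5ae62c_nt)
-/

set_option autoImplicit false

noncomputable section

namespace Pool.Agent.W2helper7.LL

open Matrix WithZero Polynomial IsDedekindDomain Pool.Agent.W2helper63.LL
open Pool.Agent.W2helper10.LL (v_inf v_fin v_pinf bor_zpow bor_inv)
open Pool.Agent.W2helper63.LL.DD (pr_mul pr_one pr_inv integral_mul integral_inv integral_one)
open scoped Classical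

/-- polynomials integral at infinity -/
lemma inf_const {P : R} (h : Valued.v (algebraMap K Kinf (algebraMap R K P)) ≤ 1) :
    ∃ a : ZMod 2, P = C a := by
  rw [v_inf] at h
  by_cases h4 : P = 0
  · exact ⟨0, by rw [h4, map_zero]⟩
  · rw [RatFunc.inftyValuation_apply, RatFunc.inftyValuation.polynomial _ h4, ← exp_zero,
      exp_le_exp] at h
    exact ⟨_, Polynomial.eq_C_of_natDegree_eq_zero (by omega)⟩

lemma inf_zero {P : R} (h : Valued.v (algebraMap K Kinf (algebraMap R K P)) < 1) : P = 0 := by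
  by_contra h4
  rw [v_inf, RatFunc.inftyValuation_apply, RatFunc.inftyValuation.polynomial _ h4, ← exp_zero,
      exp_lt_exp] at h
  omega

section det

variable {L : Type} [Field L] [Valued L (WithZero (Multiplicative ℤ))]

lemma v_det_le {M : Matrix (Fin 2) (Fin 2) L} (h : ∀ i j, Valued.v (M i j) ≤ 1) :
    Valued.v M.det ≤ 1 := by
  rw [Matrix.det_fin_two]
  refine (Valuation.map_sub _ _ _).trans (max_le ?_ ?_)
  · rw [map_mul]; exact mul_le_one' (h _ _) (h _ _)
  · rw [map_mul]; exact mul_le_one' (h _ _) (h _ _)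

lemma v_det {g : GL (Fin 2) L} (h : Integral g) : Valued.v g.1.det = 1 := by
  have h1 := v_det_le (M := g.1) fun i j => (h i j).1
  have h2 := v_det_le (M := g⁻¹.1) fun i j => (h i j).2
  have h3 : g.1.det * g⁻¹.1.det = 1 := by
    rw [← Matrix.det_mul, ← Units.val_mul, mul_inv_cancel]
    exact Matrix.det_one
  have h4 : Valued.v g.1.det * Valued.v g⁻¹.1.det = 1 := by rw [← map_mul, h3, map_one]
  refine le_antisymm h1 ?_
  calc (1 : WithZero (Multiplicative ℤ)) = Valued.v g.1.det * Valued.v g⁻¹.1.det := h4.symm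
    _ ≤ Valued.v g.1.det * 1 := mul_le_mul_right h2 _
    _ = _ := mul_one _

lemma int_nl {c : L} (hc : Valued.v c ≤ 1) : Integral (nl c) := by
  intro i j
  have e1 : (nl c)⁻¹.1 = !![(1 : L), 0; -c, 1] := rfl
  have e2 : (nl c).1 = !![(1 : L), 0; c, 1] := rfl
  rw [e1, e2]
  fin_cases i <;> fin_cases j
  · exact ⟨by simp, by simp⟩
  · exact ⟨by simp, by simp⟩
  · refine ⟨hc, ?_⟩
    show Valued.v (-c) ≤ 1
    rw [Valuation.map_neg]
    exact hc
  · exact ⟨by simp, by simp⟩

lemma int_nu {c : L} (hc : Valued.v c ≤ 1) : Integral (nu c) :=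
  (iw_bor (by simp) (by simp) hc).1

lemma int_sw : Integral (sw : GL (Fin 2) L) := by
  intro i j
  have e1 : (sw : GL (Fin 2) L)⁻¹.1 = !![(0 : L), 1; 1, 0] := rfl
  have e2 : (sw : GL (Fin 2) L).1 = !![(0 : L), 1; 1, 0] := rfl
  rw [e1, e2]
  fin_cases i <;> fin_cases j <;> simp

end det

lemma pr_ri (v : Pl) (h : GL (Fin 2) Kinf) : pr v (ri h) = 1 := by
  unfold pr ri
  exact map_one _

lemma pr_zz (v : Pl) (n : ℤ) : pr v (zz ^ n) = 1 := by
  have : ∀ n : ℤ, pr v (zz ^ n) = (pr v zz) ^ n := by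
    intro n
    unfold pr
    rw [Prod.pow_fst, map_zpow]
  rw [this]
  have : pr v zz = 1 := by
    unfold pr zz
    exact map_one _
  rw [this, _root_.one_zpow]

lemma pr_dg (v : Pl) (γ : GL (Fin 2) K) (i j : Fin 2) :
    (pr v (dg γ)).1 i j = ev v (algebraMap K Af (γ.1 i j)) := rfl

lemma dg_inv' (γ : GL (Fin 2) K) : dg γ⁻¹ = (dg γ)⁻¹ := by
  unfold dg
  rw [map_inv, map_inv]
  rfl

/-- negative part -/
lemma negQ {γ : GL (Fin 2) K} {n : ℤ} {k : GA} {h : GL (Fin 2) Kinf} (hk : inD k)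
    (e : ri h = dg γ * zz ^ n * k) :
    ∃ Q : Fin 2 → Fin 2 → R, (∀ i j, algebraMap R K (Q i j) = γ⁻¹.1 i j) ∧
      Q 0 0 * Q 1 1 - Q 0 1 * Q 1 0 = 1 ∧ (X : R) ∣ Q 0 1 ∧
      Valued.v h.1.det = exp (-(2 * n)) ∧
      (n = 0 → k.2 = GeneralLinearGroup.map (algebraMap K Kinf) γ⁻¹ * h) := by
  obtain ⟨hfin, hinf, h0, h1⟩ := hk
  have hpr : ∀ v : Pl, pr v k = pr v (dg γ⁻¹) := by
    intro v
    have h2 := congrArg (pr v) e
    rw [pr_ri, pr_mul, pr_mul, pr_zz, mul_one] at h2
    rw [dg_inv', pr_inv]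
    exact (inv_eq_of_mul_eq_one_right h2.symm).symm
  have hQ : ∀ i j, ∃ P : R, algebraMap R K P = γ⁻¹.1 i j := fun i j =>
    HeightOneSpectrum.mem_integers_of_valuation_le_one K _ fun v => by
      have := (hfin v i j).1
      rw [hpr, pr_dg, v_fin] at this
      exact this
  have hP : ∀ i j, ∃ P : R, algebraMap R K P = γ.1 i j := fun i j =>
    HeightOneSpectrum.mem_integers_of_valuation_le_one K _ fun v => by
      have := (hfin v i j).2
      rw [hpr, dg_inv', pr_inv, inv_inv, pr_dg, v_fin] at this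
      exact this
  choose P hP using hP
  choose Q hQ using hQ
  have hinj : Function.Injective (algebraMap R K) := IsFractionRing.injective R K
  have hQP : (Matrix.of Q : Matrix (Fin 2) (Fin 2) R) * Matrix.of P = 1 := by
    have h2 : γ⁻¹.1 * γ.1 = 1 := by rw [← Units.val_mul, inv_mul_cancel]; rfl
    refine Matrix.map_injective hinj ?_
    beta_reduce
    rw [Matrix.map_mul]
    have e1 : (Matrix.of P : Matrix (Fin 2) (Fin 2) R).map (algebraMap R K) = γ.1 := by
      ext i j; exact hP i j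
    have e2 : (Matrix.of Q : Matrix (Fin 2) (Fin 2) R).map (algebraMap R K) = γ⁻¹.1 := by
      ext i j; exact hQ i j
    rw [e1, e2, h2]
    simp
  have hdet : (Matrix.of Q).det = 1 := by
    have h3 : (Matrix.of Q).det * (Matrix.of P).det = 1 := by
      rw [← Matrix.det_mul, hQP, Matrix.det_one]
    obtain ⟨a, ha, hC⟩ := Polynomial.isUnit_iff.1 (IsUnit.of_mul_eq_one _ h3)
    rw [← hC]
    have : a = 1 := by
      have h4 := ha.ne_zero
      revert h4
      generalize a = b
      revert b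
      decide
    rw [this, map_one]
  have hdetγ : γ⁻¹.1.det = 1 := by
    rw [Matrix.det_fin_two] at hdet ⊢
    have := congrArg (algebraMap R K) hdet
    simpa [hQ] using this
  have hinfe : h = GeneralLinearGroup.map (algebraMap K Kinf) γ * bor (pinf ^ n) 0 (pinf ^ n) *
      k.2 := by
    have h2 := congrArg Prod.snd e
    have h3 : (zz ^ n).2 = bor (pinf ^ n) 0 (pinf ^ n) := by
      rw [Prod.pow_snd, ← bor_zpow]
      rfl
    have h4 : (dg γ * zz ^ n * k).2 = (dg γ).2 * (zz ^ n).2 * k.2 := rfl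
    rw [h4, h3] at h2
    exact h2
  have hpn : Valued.v ((pinf ^ n : Kinfˣ) : Kinf) = exp (-n) := by
    rw [Units.val_zpow_eq_zpow_val, map_zpow₀, v_pinf, ← WithZero.exp_zsmul]
    simp
  refine ⟨Q, hQ, ?_, ?_, ?_, ?_⟩
  · rw [Matrix.det_fin_two] at hdet
    exact hdet
  · rw [hpr, pr_dg, v_fin, ← hQ, HeightOneSpectrum.valuation_lt_one_iff_mem] at h0
    exact Ideal.mem_span_singleton.1 h0
  · have h5 : h.1.det = (GeneralLinearGroup.map (algebraMap K Kinf) γ).1.det *
        (bor (pinf ^ n) 0 (pinf ^ n)).1.det * k.2.1.det := by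
      rw [hinfe, Units.val_mul, Units.val_mul, Matrix.det_mul, Matrix.det_mul]
    have h6 : (bor (pinf ^ n) 0 (pinf ^ n)).1.det =
        ((pinf ^ n : Kinfˣ) : Kinf) * ((pinf ^ n : Kinfˣ) : Kinf) := by
      show (!![((pinf ^ n : Kinfˣ) : Kinf), 0; 0, ((pinf ^ n : Kinfˣ) : Kinf)]).det = _
      rw [Matrix.det_fin_two_of]
      ring
    have h7 : Valued.v (GeneralLinearGroup.map (algebraMap K Kinf) γ).1.det = 1 := by
      have h8 : (GeneralLinearGroup.map (algebraMap K Kinf) γ).1.det = algebraMap K Kinf γ.1.det := by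
        show (γ.1.map (algebraMap K Kinf)).det = _
        rw [← RingHom.mapMatrix_apply, ← RingHom.map_det]
      have h9 : γ.1.det = 1 := by
        have h10 : γ.1.det * γ⁻¹.1.det = 1 := by
          rw [← Matrix.det_mul, ← Units.val_mul, mul_inv_cancel]
          exact Matrix.det_one
        rwa [hdetγ, mul_one] at h10
      rw [h8, h9, map_one, map_one]
    rw [h5, h6, map_mul, map_mul, map_mul, h7, v_det hinf, hpn, one_mul, mul_one, ← exp_add]
    congr 1
    ring
  · rintro rfl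
    rw [hinfe, zpow_zero, map_inv]
    have h11 : bor (1 : Kinfˣ) 0 1 = 1 := by
      apply Units.ext
      show !![((1 : Kinfˣ) : Kinf), 0; 0, ((1 : Kinfˣ) : Kinf)] = 1
      rw [Units.val_one, Matrix.one_fin_two]
    rw [h11, mul_one, inv_mul_cancel_left]

/-- positive part -/
lemma posval {f : GA → ℂ} (hf : IsF f) (γ : GL (Fin 2) K) (h : GL (Fin 2) Kinf)
    (hfin : ∀ (v : Pl) i j, v.valuation K (γ.1 i j) ≤ 1 ∧ v.valuation K (γ⁻¹.1 i j) ≤ 1)
    (h0 : v0.valuation K (γ⁻¹.1 0 1) < 1)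
    (hinf : Integral (GeneralLinearGroup.map (algebraMap K Kinf) γ⁻¹ * h))
    (h1 : Valued.v ((GeneralLinearGroup.map (algebraMap K Kinf) γ⁻¹ * h).1 1 0) < 1) :
    f (ri h) = sgn (pr v1 (dg γ⁻¹)) := by
  have hk2 : (dg γ⁻¹ * ri h).2 = GeneralLinearGroup.map (algebraMap K Kinf) γ⁻¹ * h := rfl
  have hk : inD (dg γ⁻¹ * ri h) := by
    refine ⟨fun v => ?_, by rw [hk2]; exact hinf, ?_, by rw [hk2]; exact h1⟩
    · rw [pr_mul, pr_ri, mul_one]
      intro i j
      refine ⟨?_, ?_⟩
      · rw [pr_dg, v_fin]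
        exact (hfin v i j).2
      · rw [dg_inv', pr_inv, inv_inv, pr_dg, v_fin]
        exact (hfin v i j).1
    · rw [pr_mul, pr_ri, mul_one, pr_dg, v_fin]
      exact h0
  have h2 := hf.1 γ 0 _ hk
  rw [zpow_zero, mul_one, ← mul_assoc, dg_inv', mul_inv_cancel, one_mul] at h2
  rw [h2, ← dg_inv']
  unfold chi
  rw [pr_mul, pr_ri, mul_one]

lemma v_le (v : Pl) (P : R) : v.valuation K (algebraMap R K P) ≤ 1 :=
  HeightOneSpectrum.valuation_le_one v P

theorem val : S_VAL := by
  intro hDD hFRV hFRI f hf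
  have e00 : ∀ x y : K, (nl x).1 0 0 = 1 ∧ (nl x).1 0 1 = 0 ∧ (nl x).1 1 0 = x ∧ (nl x).1 1 1 = 1 :=
    fun x y => ⟨rfl, rfl, rfl, rfl⟩
  have h1 : f 1 = 1 := by
    have h2 := hf.1 1 0 1 hDD.2.1
    have h3 : dg 1 = 1 := by
      unfold dg
      rw [map_one, map_one]
      rfl
    rw [zpow_zero, mul_one, mul_one, h3] at h2
    rw [h2]
    exact hDD.2.2.2.2.2
  refine ⟨h1, ?_, ?_, ?_, ?_, ?_⟩
  · -- sw
    apply hf.2
    rintro ⟨γ, n, k, hk, e⟩
    obtain ⟨Q, hQ, hdet, hX, hv, hk2⟩ := negQ hk e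
    have hs : (sw : GL (Fin 2) Kinf).1 = !![(0 : Kinf), 1; 1, 0] := rfl
    have hn : n = 0 := by
      rw [hs, Matrix.det_fin_two_of, zero_mul, one_mul, zero_sub, Valuation.map_neg, map_one,
        ← exp_zero, exp_inj] at hv
      omega
    have hk2 := hk2 hn
    have hmap : GeneralLinearGroup.map (algebraMap K Kinf) γ⁻¹ = k.2 * sw := by
      rw [hk2, mul_assoc]
      have : (sw : GL (Fin 2) Kinf) * sw = 1 := by
        apply Units.ext
        rw [Units.val_mul, hs, Units.val_one]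
        ext i j
        fin_cases i <;> fin_cases j <;> simp [Matrix.mul_apply, Fin.sum_univ_two]
      rw [this, mul_one]
    have hint : Integral (GeneralLinearGroup.map (algebraMap K Kinf) γ⁻¹) := by
      rw [hmap]
      exact integral_mul hk.2.1 int_sw
    have hent : ∀ i j, (GeneralLinearGroup.map (algebraMap K Kinf) γ⁻¹).1 i j =
        algebraMap K Kinf (algebraMap R K (Q i j)) := by
      intro i j
      rw [hQ]
      rfl
    obtain ⟨a, ha⟩ := inf_const (P := Q 0 1) (by rw [← hent]; exact (hint 0 1).1)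
    have hQ01 : Q 0 1 = 0 := by
      rw [ha] at hX ⊢
      rw [Polynomial.X_dvd_iff, Polynomial.coeff_C_zero] at hX
      rw [hX, map_zero]
    have hQ11 : Q 1 1 = 0 := by
      apply inf_zero
      rw [← hent]
      have h3 := hk.2.2.2
      rw [hk2] at h3
      have h4 : (GeneralLinearGroup.map (algebraMap K Kinf) γ⁻¹ * sw).1 1 0 =
          (GeneralLinearGroup.map (algebraMap K Kinf) γ⁻¹).1 1 1 := by
        rw [Units.val_mul, hs]
        simp [Matrix.mul_apply, Fin.sum_univ_two]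
      rwa [h4] at h3
    rw [hQ01, hQ11, mul_zero, zero_mul, sub_zero] at hdet
    exact zero_ne_one hdet
  · -- nu 1 * sw
    have hg : (nl (1 : K))⁻¹.1 = !![(1 : K), 0; -1, 1] := rfl
    have hg' : (nl (1 : K)).1 = !![(1 : K), 0; 1, 1] := rfl
    have hm : GeneralLinearGroup.map (algebraMap K Kinf) (nl (1 : K))⁻¹ = (nl (1 : Kinf))⁻¹ := by
      rw [map_inv]
      congr 1
      apply Units.ext
      show (!![(1 : K), 0; 1, 1]).map (algebraMap K Kinf) = !![(1 : Kinf), 0; 1, 1]
      ext i j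
      fin_cases i <;> fin_cases j <;> simp
    have h2 := posval hf (nl (1 : K)) (nu 1 * sw) ?_ ?_ ?_ ?_
    · rw [h2]
      unfold sgn
      have hM : (pr v1 (dg (nl (1 : K))⁻¹)).1.map rd = !![(1 : ZMod 2), 0; 1, 1] := by
        ext i j
        rw [Matrix.map_apply, pr_dg, hg]
        fin_cases i <;> fin_cases j <;> simp [rd]
      rw [hM]
      unfold sgnM
      rw [if_neg (by decide)]
    · intro v i j
      rw [hg, hg']
      fin_cases i <;> fin_cases j <;> simp
    · rw [hg]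
      simp
    · rw [hm]
      exact integral_mul (integral_inv (int_nl (by simp))) (integral_mul (int_nu (by simp)) int_sw)
    · rw [hm]
      have hc : ((nl (1 : Kinf))⁻¹ * (nu 1 * sw)).1 1 0 = 0 := by
        have e1 : (nl (1 : Kinf))⁻¹.1 = !![(1 : Kinf), 0; -1, 1] := rfl
        have e2 : (nu (1 : Kinf)).1 = !![(1 : Kinf), 1; 0, 1] := rfl
        have e3 : (sw : GL (Fin 2) Kinf).1 = !![(0 : Kinf), 1; 1, 0] := rfl
        rw [Units.val_mul, Units.val_mul, e1, e2, e3]
        simp [Matrix.mul_apply, Fin.sum_univ_two]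
      rw [hc, map_zero]
      exact zero_lt_one
  · -- nu T
    have hg : (nu (RatFunc.X : K))⁻¹.1 = !![(1 : K), -RatFunc.X; 0, 1] := by
      show !![(((1 : Kˣ)⁻¹ : Kˣ) : K), -(((1 : Kˣ)⁻¹ : Kˣ) : K) * RatFunc.X * (((1 : Kˣ)⁻¹ : Kˣ) : K);
        0, (((1 : Kˣ)⁻¹ : Kˣ) : K)] = _
      simp
    have hg' : (nu (RatFunc.X : K)).1 = !![(1 : K), RatFunc.X; 0, 1] := rfl
    have hX : (RatFunc.X : K) = algebraMap R K X := RatFunc.algebraMap_X.symm
    have hm : GeneralLinearGroup.map (algebraMap K Kinf) (nu (RatFunc.X : K))⁻¹ *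
        nu (Tu : Kinf) = 1 := by
      rw [map_inv, inv_mul_eq_one]
      apply Units.ext
      show (!![(1 : K), RatFunc.X; 0, 1]).map (algebraMap K Kinf) = !![(1 : Kinf), (Tu : Kinf); 0, 1]
      have hT : (Tu : Kinf) = algebraMap K Kinf RatFunc.X := rfl
      rw [hT]
      ext i j
      fin_cases i <;> fin_cases j <;> simp
    have hv1 : v1.valuation K (RatFunc.X : K) = 1 := by
      refine le_antisymm (by rw [hX]; exact v_le v1 X) ?_
      rw [hX]
      by_contra hcon
      rw [not_le, HeightOneSpectrum.valuation_lt_one_iff_mem] at hcon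
      have h3 : (X - C 1 : R) ∣ X := Ideal.mem_span_singleton.1 hcon
      rw [Polynomial.dvd_iff_isRoot, Polynomial.IsRoot.def, Polynomial.eval_X] at h3
      exact one_ne_zero h3
    have h2 := posval hf (nu (RatFunc.X : K)) (nu (Tu : Kinf)) ?_ ?_ ?_ ?_
    · rw [h2]
      unfold sgn
      have hM : (pr v1 (dg (nu (RatFunc.X : K))⁻¹)).1.map rd = !![(1 : ZMod 2), 1; 0, 1] := by
        ext i j
        rw [Matrix.map_apply, pr_dg, hg]
        fin_cases i <;> fin_cases j
        · simp [rd]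
        · show rd (ev v1 (algebraMap K Af (-RatFunc.X))) = 1
          unfold rd
          rw [v_fin, Valuation.map_neg, hv1, if_neg (lt_irrefl _)]
        · simp [rd]
        · simp [rd]
      rw [hM]
      unfold sgnM
      rw [if_neg (by decide)]
    · intro v i j
      rw [hg, hg']
      have hle : v.valuation K (RatFunc.X : K) ≤ 1 := by rw [hX]; exact v_le v X
      fin_cases i <;> fin_cases j <;> simp [Valuation.map_neg, hle]
    · rw [hg]
      show v0.valuation K (-RatFunc.X) < 1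
      rw [Valuation.map_neg, hX, HeightOneSpectrum.valuation_lt_one_iff_mem]
      exact Ideal.mem_span_singleton_self X
    · rw [hm]
      exact integral_one
    · rw [hm, Units.val_one, Matrix.one_apply_ne (by decide), map_zero]
      exact zero_lt_one
  · -- w⁻¹ s w
    apply hf.2
    rintro ⟨γ, n, k, hk, e⟩
    obtain ⟨Q, hQ, hdet, hX, hv, hk2⟩ := negQ hk e
    have hh : ((ww pinf)⁻¹ * sw * ww pinf).1 = !![(0 : Kinf), ((pinf⁻¹ : Kinfˣ) : Kinf); (pinf : Kinf), 0] := by
      have e1 : (ww pinf)⁻¹.1 = !![(0 : Kinf), ((pinf⁻¹ : Kinfˣ) : Kinf); 1, 0] := rfl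
      have e2 : (ww pinf).1 = !![(0 : Kinf), 1; (pinf : Kinf), 0] := rfl
      have e3 : (sw : GL (Fin 2) Kinf).1 = !![(0 : Kinf), 1; 1, 0] := rfl
      rw [Units.val_mul, Units.val_mul, e1, e2, e3]
      ext i j
      fin_cases i <;> fin_cases j <;> simp [Matrix.mul_apply, Fin.sum_univ_two]
    have hpp : ((pinf⁻¹ : Kinfˣ) : Kinf) * (pinf : Kinf) = 1 := by
      rw [← Units.val_mul, inv_mul_cancel, Units.val_one]
    have hn : n = 0 := by
      rw [hh, Matrix.det_fin_two_of, zero_mul, zero_sub, hpp, Valuation.map_neg, map_one,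
        ← exp_zero, exp_inj] at hv
      omega
    have hk2 := hk2 hn
    have hcol : ∀ i, (GeneralLinearGroup.map (algebraMap K Kinf) γ⁻¹).1 i 0 =
        (pinf : Kinf) * k.2.1 i 1 := by
      intro i
      rw [hk2, Units.val_mul, hh]
      have h3 : ∀ M : Matrix (Fin 2) (Fin 2) Kinf, (M * !![(0 : Kinf), ((pinf⁻¹ : Kinfˣ) : Kinf);
          (pinf : Kinf), 0]) i 1 = M i 0 * ((pinf⁻¹ : Kinfˣ) : Kinf) := by
        intro M
        simp [Matrix.mul_apply, Fin.sum_univ_two]
      rw [h3]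
      linear_combination -(GeneralLinearGroup.map (algebraMap K Kinf) γ⁻¹).1 i 0 * hpp
    have hz : ∀ i, Q i 0 = 0 := by
      intro i
      apply inf_zero
      rw [hQ]
      show Valued.v ((GeneralLinearGroup.map (algebraMap K Kinf) γ⁻¹).1 i 0) < 1
      rw [hcol, map_mul, v_pinf]
      calc exp (-1 : ℤ) * Valued.v (k.2.1 i 1) ≤ exp (-1 : ℤ) * 1 :=
            mul_le_mul_right (hk.2.1 i 1).1 _
        _ < 1 := by
            rw [mul_one, ← exp_zero, exp_lt_exp]
            norm_num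
    rw [hz 0, hz 1, mul_zero, zero_mul, sub_zero] at hdet
    exact zero_ne_one hdet
  · -- w
    apply hf.2
    rintro ⟨γ, n, k, hk, e⟩
    obtain ⟨Q, hQ, hdet, hX, hv, hk2⟩ := negQ hk e
    have hw : (ww pinf).1 = !![(0 : Kinf), 1; (pinf : Kinf), 0] := rfl
    rw [hw, Matrix.det_fin_two_of, zero_mul, one_mul, zero_sub, Valuation.map_neg, v_pinf,
      exp_inj] at hv
    omega

end Pool.Agent.W2helper7.LL
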